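import Pool.Agent.X22.EQ19

/-!
# The normal law for the sums of Mestre and Nagao in arbitrarily thin families of elliptic curves

Nothing is used besides Mathlib in the statement.
-/

set_option autoImplicit false

namespace Pool.Agent.Results.MP_6073f3_nt.FewDigitNagaoNormalLaw

open Finset

/-- `a_p` for the curve `Y ^ 2 = X ^ 3 + A X + B` modulo `p`: `p` minus the number of its affine points over `ℤ/p`. -/
noncomputable def trace (p : ℕ) (A B : ℤ) : ℤ :=
  (p : ℤ) - Nat.card {P : ZMod p × ZMod p // P.2 ^ 2 = P.1 ^ 3 + (A : ZMod p) * P.1 + (B : ZMod p)}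

/-- The weighted sum of Mestre and Nagao for the curve `Y ^ 2 = X ^ 3 + A X + B`: `-(1 / log x) ∑ w (p) a_p log p / p` over the primes `p ≤ x`. -/
noncomputable def nagao (w : ℕ → ℝ) (A B : ℤ) (x : ℕ) : ℝ :=
  -(1 / Real.log x * ∑ p ∈ (Icc 1 x).filter Nat.Prime, w p * trace p A B * Real.log p / p)

/-- The variance: `(1 / log x) ^ 2 ∑ w (p) ^ 2 (log p) ^ 2 / p` over the primes `p ≤ x`. -/
noncomputable def variance (w : ℕ → ℝ) (x : ℕ) : ℝ :=
  1 / Real.log x ^ 2 * ∑ p ∈ (Icc 1 x).filter Nat.Prime, w p ^ 2 * Real.log p ^ 2 / p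

/-- The value of the linear form `∑ a_l m_l`. -/
def form {d : ℕ} (a : Fin d → ℤ) (m : Fin d → ℕ) : ℤ := ∑ l, (m l : ℤ) * a l

/-- The condition on the two linear forms `a`, `e`: one variable occurs only in `a` and one only in `e`, both with coefficient `1`. -/
def Free {d : ℕ} (a e : Fin d → ℤ) : Prop := ∃ l₀ l₁, a l₀ = 1 ∧ e l₀ = 0 ∧ a l₁ = 0 ∧ e l₁ = 1

/-- The digit number `i` (counted from the right, beginning with `0`) of `n` in base `b`. -/
def digit (b i n : ℕ) : ℕ := n / b ^ i % b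

/-- The number which arises from the number `N` with at most `K` digits in base `b`, if for every `i ∈ S`
the digit number `i` is replaced by `f i`. -/
def change (b K N : ℕ) (f : ℕ → ℕ) (S : Finset ℕ) : ℕ :=
  ∑ i ∈ range K, (if i ∈ S then f i else digit b i N) * b ^ i

open Classical in
/-- The number of the choices of `s l` of `K l` positions for all `l < d` for which the vector of the numbers obtained by
changing the digits of the `N l` at the chosen positions (according to `f l`) has the property `E`. -/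
noncomputable def choices {d : ℕ} (b : ℕ) (K s N : Fin d → ℕ) (f : Fin d → ℕ → ℕ) (E : (Fin d → ℕ) → Prop) : ℕ :=
  ((Fintype.piFinset (fun l => powersetCard (s l) (range (K l)))).filter
    (fun S => E (fun l => change b (K l) (N l) (f l) (S l)))).card

open Pool.Agent.X22.EQ Pool.Agent.TH894.NE

private lemma trace_tq (p : ℕ) (hp : p.Prime) (A B : ℤ) : haveI : Fact p.Prime := ⟨hp⟩
    trace p A B = Pool.Agent.X22.EC.tq (A : ZMod p) (B : ZMod p) := by
  have hf : Fact p.Prime := ⟨hp⟩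
  unfold trace Pool.Agent.X22.EC.tq
  rw [Nat.card_eq_fintype_card (α := ZMod p), ZMod.card]

private lemma trace_small (p : ℕ) (hp : p.Prime) (A B : ℤ) : |(trace p A B : ℝ)| ≤ (p : ℝ) ^ 2 := by
  have hf : Fact p.Prime := ⟨hp⟩
  have hp1 : (1 : ℝ) ≤ p := by exact_mod_cast hp.one_lt.le
  have h1 : Nat.card {P : ZMod p × ZMod p // P.2 ^ 2 = P.1 ^ 3 + (A : ZMod p) * P.1 + (B : ZMod p)} ≤ p ^ 2 := by
    refine (Finite.card_subtype_le _).trans (le_of_eq ?_)
    rw [Nat.card_eq_fintype_card, Fintype.card_prod, ZMod.card]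
    ring
  have h2 : ((Nat.card {P : ZMod p × ZMod p // P.2 ^ 2 = P.1 ^ 3 + (A : ZMod p) * P.1 + (B : ZMod p)} : ℕ) : ℝ) ≤ (p : ℝ) ^ 2 := by exact_mod_cast h1
  have h3 : (0 : ℝ) ≤ ((Nat.card {P : ZMod p × ZMod p // P.2 ^ 2 = P.1 ^ 3 + (A : ZMod p) * P.1 + (B : ZMod p)} : ℕ) : ℝ) := Nat.cast_nonneg _
  unfold trace
  push_cast
  rw [abs_le]
  constructor <;> nlinarith

/-- **The normal law for the sums of Mestre and Nagao in thin families.** Let a base `b ≥ 2`, an integer `d ≥ 1` and `η, ε > 0` be given. There is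
`c > 0` such that for all integers `r_l`, `K_l` (`l = 1, ..., d`) with `2 r_l ≤ K_l` and all `x` with `1 / c ≤ x ≤ exp (c √r_l)` for all `l` the following holds.

Let `0 ≤ N_l < b ^ K_l` be arbitrary integers, prescribe for every position `j` a digit `f l j` different from the digit of `N_l` in base `b`, and let `a`, `e` be linear
forms with integer coefficients in `d` variables which satisfy `Free`. Choose `r_l` of the `K_l` positions, replace the digits of `N_l` at these positions and let `m` be the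
vector obtained and `E_m` the curve `Y ^ 2 = X ^ 3 + a (m) X + e (m)`.

(1) Let `w` be any real function with `|w (p)| ≤ 1`, and `s ≥ η` with `|s ^ 2 - σ ^ 2| ≤ c`, where `σ ^ 2 = (1 / log x) ^ 2 ∑_{p ≤ x} w (p) ^ 2 (log p) ^ 2 / p`. For every real
`t` the proportion of the choices with `-(1 / log x) ∑_{p ≤ x} w (p) a_p (E_m) log p / p ≤ t s` differs from the value `Φ (t)` of the distribution function of the standard
normal law by at most `ε`.

(2) For `w = 1` one can take `s = √(1 / 2)`: for every real `t` the proportion of the choices with `-(1 / log x) ∑_{p ≤ x} a_p (E_m) log p / p ≤ t √(1 / 2)` differs from `Φ (t)` by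
at most `ε`. -/
theorem result (b d : ℕ) (hb : 2 ≤ b) (hd : 1 ≤ d) (η ε : ℝ) (hη : 0 < η) (hε : 0 < ε) :
    ∃ c : ℝ, 0 < c ∧ ∀ (K r : Fin d → ℕ) (x : ℕ), (∀ l, 2 * r l ≤ K l) → 1 / c ≤ (x : ℝ) → (∀ l, (x : ℝ) ≤ Real.exp (c * Real.sqrt (r l))) →
    ∀ N : Fin d → ℕ, (∀ l, N l < b ^ K l) → ∀ f : Fin d → ℕ → ℕ, (∀ l j, f l j < b ∧ f l j ≠ digit b j (N l)) →
    ∀ a e : Fin d → ℤ, Free a e →
      (∀ w : ℕ → ℝ, (∀ n, |w n| ≤ 1) → ∀ s : ℝ, η ≤ s → |s ^ 2 - variance w x| ≤ c → ∀ t : ℝ,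
        |(choices b K r N f (fun m => nagao w (form a m) (form e m) x ≤ t * s) : ℝ) -
          (ProbabilityTheory.gaussianReal 0 1).real (Set.Iic t) * ∏ l, ((K l).choose (r l) : ℝ)| ≤ ε * ∏ l, ((K l).choose (r l) : ℝ)) ∧
      (∀ t : ℝ, |(choices b K r N f (fun m => nagao (fun _ => 1) (form a m) (form e m) x ≤ t * Real.sqrt (1 / 2)) : ℝ) -
          (ProbabilityTheory.gaussianReal 0 1).real (Set.Iic t) * ∏ l, ((K l).choose (r l) : ℝ)| ≤ ε * ∏ l, ((K l).choose (r l) : ℝ)) := by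
  classical
  obtain ⟨C₀, hC₀, hls⟩ := sum_log_sq
  obtain ⟨c₁, hc₁, key⟩ := nagao_clt b d hb hd (min η (1 / 2)) ε (lt_min hη (by norm_num)) hε
  obtain ⟨c, hc⟩ : ∃ c : ℝ, c = min c₁ (min 1 (Real.exp (-(C₀ / c₁ + 1)))) := ⟨_, rfl⟩
  have hc0 : 0 < c := by rw [hc]; exact lt_min hc₁ (lt_min one_pos (Real.exp_pos _))
  have hca : c ≤ c₁ := by rw [hc]; exact min_le_left _ _
  have hcb : c ≤ 1 := by rw [hc]; exact (min_le_right _ _).trans (min_le_left _ _)
  have hcd : c ≤ Real.exp (-(C₀ / c₁ + 1)) := by rw [hc]; exact (min_le_right _ _).trans (min_le_right _ _)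
  refine ⟨c, hc0, fun K r x hrK hx hxr N hN f hf a e hae => ?_⟩
  have hx1 : 1 ≤ x := by
    have h1 : (1 : ℝ) ≤ x := by
      refine le_trans ?_ hx
      rw [le_div_iff₀ hc0]
      linarith
    exact_mod_cast h1
  have hx0 : (0 : ℝ) < x := by exact_mod_cast hx1
  obtain ⟨T, hT⟩ : ∃ T : ℕ → (Fin d → ℕ) → ℝ, T = fun p m => (trace p (form a m) (form e m) : ℝ) := ⟨_, rfl⟩
  have hcastf : ∀ (p : ℕ) (u : Fin d → ℤ) (m : Fin d → ℕ), ((form u m : ℤ) : ZMod p) = ∑ i, (m i : ZMod p) * ((u i : ℤ) : ZMod p) := by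
    intro p u m
    unfold form
    push_cast
    rfl
  have hTtq : ∀ (p : ℕ) (hp : p.Prime), ∀ m, haveI : Fact p.Prime := ⟨hp⟩
      T p m = (Pool.Agent.X22.EC.tq (∑ i, (m i : ZMod p) * ((a i : ℤ) : ZMod p)) (∑ i, (m i : ZMod p) * ((e i : ℤ) : ZMod p)) : ℝ) := by
    intro p hp m
    rw [hT]
    show (trace p (form a m) (form e m) : ℝ) = _
    rw [trace_tq p hp, hcastf, hcastf]
  obtain ⟨l₀, l₁, ha0, he0, ha1, he1⟩ := hae
  have hper : ∀ p, p.Prime → Per p (T p) := by
    intro p hp m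
    have hfp : Fact p.Prime := ⟨hp⟩
    rw [hTtq p hp m, hTtq p hp (fun i => m i % p)]
    congr 2
    · exact sum_congr rfl fun i _ => by rw [ZMod.natCast_mod]
    · exact sum_congr rfl fun i _ => by rw [ZMod.natCast_mod]
  have hTp : ∀ p, p.Prime → ∀ m, |T p m| ≤ (p : ℝ) ^ 2 := by
    intro p hp m
    rw [hT]
    exact trace_small p hp _ _
  have hTs : ∀ p, p.Prime → p ≠ 2 → ∀ m, |T p m| ≤ 2 * Real.sqrt p := by
    intro p hp h2 m
    have hfp : Fact p.Prime := ⟨hp⟩
    have h3 : ringChar (ZMod p) ≠ 2 := by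
      rw [ZMod.ringChar_zmod_n]
      exact h2
    rw [hTtq p hp m]
    have := Pool.Agent.X22.EC.tq_bound h3 (∑ i, (m i : ZMod p) * ((a i : ℤ) : ZMod p)) (∑ i, (m i : ZMod p) * ((e i : ℤ) : ZMod p))
    rwa [Nat.card_eq_fintype_card, ZMod.card] at this
  have hmean : ∀ (p : ℕ) (hp : p.Prime), p ≠ 2 → mean d p (T p) = 0 ∧ mean d p (fun m => T p m ^ 2) = p - 1 := by
    intro p hp h2
    have hfp : Fact p.Prime := ⟨hp⟩
    have h3 : ringChar (ZMod p) ≠ 2 := by
      rw [ZMod.ringChar_zmod_n]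
      exact h2
    have hp0 : (p : ℝ) ≠ 0 := by exact_mod_cast hp.ne_zero
    have h4 := mean_two (p := p) (fun i => ((a i : ℤ) : ZMod p)) (fun i => ((e i : ℤ) : ZMod p)) l₀ l₁ (by rw [ha0, Int.cast_one])
      (by rw [he0, Int.cast_zero]) (by rw [ha1, Int.cast_zero]) (by rw [he1, Int.cast_one]) (fun s t => (Pool.Agent.X22.EC.tq s t : ℝ))
    have h5 := mean_two (p := p) (fun i => ((a i : ℤ) : ZMod p)) (fun i => ((e i : ℤ) : ZMod p)) l₀ l₁ (by rw [ha0, Int.cast_one])
      (by rw [he0, Int.cast_zero]) (by rw [ha1, Int.cast_zero]) (by rw [he1, Int.cast_one]) (fun s t => (Pool.Agent.X22.EC.tq s t : ℝ) ^ 2)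
    have h6 : mean d p (T p) = (∑ z : ZMod p × ZMod p, (Pool.Agent.X22.EC.tq z.1 z.2 : ℝ)) / (p : ℝ) ^ 2 := by
      rw [← h4]
      congr 1
      funext m
      exact hTtq p hp m
    have h7 : mean d p (fun m => T p m ^ 2) = (∑ z : ZMod p × ZMod p, (Pool.Agent.X22.EC.tq z.1 z.2 : ℝ) ^ 2) / (p : ℝ) ^ 2 := by
      rw [← h5]
      congr 1
      funext m
      rw [hTtq p hp m]
    have h8 : ∑ z : ZMod p × ZMod p, ((Pool.Agent.X22.EC.tq z.1 z.2 : ℤ) : ℝ) = 0 :=
      Pool.Agent.X22.EC.sum_odd h3 (fun n => (n : ℝ)) (fun n => by push_cast; ring)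
    rw [h6, h7, h8, sum_tq_sq h2]
    refine ⟨zero_div _, ?_⟩
    field_simp
  have hxr' : ∀ i, Real.log x ^ 2 ≤ c₁ * r i := by
    intro i
    have h1 : Real.log x ≤ c * Real.sqrt (r i) := by
      rw [Real.log_le_iff_le_exp hx0]
      exact hxr i
    have h2 : 0 ≤ Real.log x := Real.log_nonneg (by exact_mod_cast hx1)
    calc Real.log x ^ 2 ≤ (c * Real.sqrt (r i)) ^ 2 := pow_le_pow_left₀ h2 h1 2
      _ = (c * c) * r i := by rw [mul_pow, Real.sq_sqrt (Nat.cast_nonneg _)]; ring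
      _ ≤ c₁ * r i := by
          apply mul_le_mul_of_nonneg_right _ (Nat.cast_nonneg _)
          nlinarith
  have main : ∀ w : ℕ → ℝ, (∀ n, |w n| ≤ 1) → ∀ s : ℝ, min η (1 / 2) ≤ s → |s ^ 2 - variance w x| ≤ c₁ → ∀ t : ℝ,
        |(choices b K r N f (fun m => nagao w (form a m) (form e m) x ≤ t * s) : ℝ) -
          (ProbabilityTheory.gaussianReal 0 1).real (Set.Iic t) * ∏ l, ((K l).choose (r l) : ℝ)| ≤ ε * ∏ l, ((K l).choose (r l) : ℝ) := by
    intro w hw s hs hsv t
    have hs0 : 0 < s := lt_of_lt_of_le (lt_min hη (by norm_num)) hs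
    have h := key r K x hrK ((one_div_le_one_div_of_le hc0 hca).trans hx) hxr' N hN f hf w hw s hs hsv T hper hTp hTs (fun p hp h2 => (hmean p hp h2).1)
      (fun p hp h2 => (hmean p hp h2).2) t
    have hcount : (choices b K r N f (fun m => nagao w (form a m) (form e m) x ≤ t * s) : ℕ) =
      ((Fintype.piFinset (fun i => powersetCard (r i) (range (K i)))).filter
      (fun S => -(1 / Real.log x * ∑ p ∈ Pool.Agent.Helper923.HMertens.PP x, w p * T p (fun i => Pool.Agent.TH894.SM.change b (K i) (N i) (f i) (S i)) * Real.log p / p) / s ≤ t)).card := by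
      unfold choices
      congr 1
      apply filter_congr
      intro S _
      rw [div_le_iff₀ hs0, hT]
      rfl
    rw [hcount]
    exact h
  refine ⟨fun w hw s hs hsv t => main w hw s ((min_le_left _ _).trans hs) (hsv.trans hca) t, fun t => ?_⟩
  apply main (fun _ => 1) (fun _ => by simp) (Real.sqrt (1 / 2))
  · refine (min_le_right _ _).trans ?_
    apply Real.le_sqrt_of_sq_le
    norm_num
  · rw [Real.sq_sqrt (by norm_num)]
    have h1 := hls x hx1
    have hlx : C₀ / c₁ + 1 ≤ Real.log x := by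
      have h2 : Real.exp (C₀ / c₁ + 1) ≤ x := by
        refine le_trans ?_ hx
        rw [le_div_iff₀ hc0]
        calc Real.exp (C₀ / c₁ + 1) * c ≤ Real.exp (C₀ / c₁ + 1) * Real.exp (-(C₀ / c₁ + 1)) := mul_le_mul_of_nonneg_left hcd (Real.exp_pos _).le
          _ = 1 := by rw [← Real.exp_add]; norm_num
      have h3 := Real.log_le_log (Real.exp_pos _) h2
      rwa [Real.log_exp] at h3
    have hq : 0 ≤ C₀ / c₁ := by positivity
    have hl0 : 0 < Real.log x := by linarith
    have h4 : variance (fun _ => 1) x = 1 / Real.log x ^ 2 * ∑ p ∈ Pool.Agent.Helper923.HMertens.PP x, Real.log p ^ 2 / p := by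
      unfold variance
      congr 1
      exact sum_congr rfl fun p _ => by rw [one_pow, one_mul]
    rw [h4]
    obtain ⟨Z, hZ⟩ : ∃ Z : ℝ, Z = ∑ p ∈ Pool.Agent.Helper923.HMertens.PP x, Real.log p ^ 2 / (p : ℝ) := ⟨_, rfl⟩
    rw [← hZ] at h1 ⊢
    have h5 : 1 / 2 - 1 / Real.log x ^ 2 * Z = -(Z - Real.log x ^ 2 / 2) / Real.log x ^ 2 := by
      field_simp
      ring
    rw [h5, abs_div, abs_neg, abs_of_pos (by positivity : 0 < Real.log x ^ 2), div_le_iff₀ (by positivity)]
    refine h1.trans ?_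
    have h6 : C₀ ≤ c₁ * Real.log x := by
      have : C₀ / c₁ ≤ Real.log x := by linarith
      rw [div_le_iff₀ hc₁] at this
      linarith
    calc C₀ * Real.log x ≤ (c₁ * Real.log x) * Real.log x := mul_le_mul_of_nonneg_right h6 hl0.le
      _ = _ := by ring

end Pool.Agent.Results.MP_6073f3_nt.FewDigitNagaoNormalLaw
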