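import Pool.Agent.X278.AV.MomH
import Pool.Agent.X278.AV.Gau4

/-!
# All elliptic curves over the rational numbers by height: the Gaussian law, and the proportion of rank zero

For `E : y² = x³ + A x + B` put `N_p = #{affine points modulo p}` and, for fixed `γ > π/2`,

`ℓ_T(E) = ∑_{p ∤ 6 (4 A³ + 27 B²)} w(log p / T) log((N_p + 1) / p)`, `w(u) = cos(γu) / Γ(1 + u)`,

the logarithm of the original product of Birch and Swinnerton-Dyer with a smooth weight (absolutely convergent). For ONE
curve `ℓ_T(E) / log T → ord_{s=1} L(E, s)` as `T → ∞` (nothing is assumed on zeros).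

We prove a central limit theorem over the family of the question, ALL elliptic curves over `ℚ` ordered by the naive
height, without any hypothesis: the proportion `P(X, T; v)` of the curves of height `≤ X` with

`ℓ_T(E) ≤ ½ log T + v √(log T)`

tends to the normal distribution function `Φ(v)` in the iterated limit `X → ∞`, then `T → ∞`; all the exponential moments
converge as well. In the other order, `lim_T P(X, T; v)` is for EVERY `v` the proportion of the curves of height `≤ X`
with `L(E, 1) ≠ 0`. So the minimalist prediction for analytic rank `0`, that this proportion tends to `1/2 = Φ(0)`, is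
EQUIVALENT to the interchange of the two quantifiers (for all large `T`, for all large `X`) in

`|P(X, T; 0) - 1/2| < ε`,

a statement which is proved here for one order of the quantifiers.
-/

set_option autoImplicit false

open Filter Topology

namespace Pool.Agent.Results.MP_6073f3_nt.GaussianByHeight

/-- The prime `p` does not divide `6 (4 A³ + 27 B²)`. -/
def Good (A B : ℤ) (p : ℕ) : Prop := ¬ (p : ℤ) ∣ 6 * (4 * A ^ 3 + 27 * B ^ 2)

/-- `N_p`, the number of affine points of `y² = x³ + A x + B` modulo `p`. -/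
noncomputable def points (A B : ℤ) (p : ℕ) : ℕ :=
  Nat.card {P : ZMod p × ZMod p // P.2 ^ 2 = P.1 ^ 3 + (A : ZMod p) * P.1 + (B : ZMod p)}

/-- The weight `cos(γu) / Γ(1 + u)`. -/
noncomputable def weight (γ u : ℝ) : ℝ := Real.cos (γ * u) / Real.Gamma (1 + u)

/-- `ℓ_T(E)`, the sum of `w(log p / T) log((N_p + 1) / p)` over the primes not dividing `6 (4 A³ + 27 B²)`. -/
noncomputable def logProduct (γ T : ℝ) (E : ℤ × ℤ) : ℝ :=
  ∑' p : Nat.Primes, open Classical in
    if Good E.1 E.2 p then weight γ (Real.log (p : ℕ) / T) * Real.log (((points E.1 E.2 p : ℝ) + 1) / (p : ℕ)) else 0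

/-- The curves of height at most `X`: the pairs `(A, B)` with `4 A³ + 27 B² ≠ 0`, such that no prime `p` satisfies
both `p⁴ ∣ A` and `p⁶ ∣ B`, with `4 |A|³ ≤ X` and `27 B² ≤ X` (hence `|A|, |B| ≤ X`). -/
noncomputable def family (X : ℕ) : Finset (ℤ × ℤ) :=
  open Classical in
  ((Finset.Icc (-(X : ℤ)) X) ×ˢ (Finset.Icc (-(X : ℤ)) X)).filter fun E =>
    4 * E.1 ^ 3 + 27 * E.2 ^ 2 ≠ 0 ∧ (∀ p : ℕ, p.Prime → ¬ ((p : ℤ) ^ 4 ∣ E.1 ∧ (p : ℤ) ^ 6 ∣ E.2)) ∧
      4 * |E.1| ^ 3 ≤ X ∧ 27 * E.2 ^ 2 ≤ X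

/-- `P(X, T; v)`: the proportion of the curves of height at most `X` with `(ℓ_T(E) - ½ log T) / √(log T) ≤ v`. -/
noncomputable def proportion (γ v T : ℝ) (X : ℕ) : ℝ :=
  open Classical in
  (((family X).filter fun E => (logProduct γ T E - 1 / 2 * Real.log T) / √(Real.log T) ≤ v).card : ℝ) / (family X).card

/-- `Φ(v)`, the distribution function of the standard normal law. -/
noncomputable def Phi (v : ℝ) : ℝ := (ProbabilityTheory.gaussianReal 0 1).real (Set.Iic v)

open Classical in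
/-- `F` is the incomplete `L`-series of `y² = x³ + A x + B` for `Re s > 3/2`. -/
def IsLSeries (A B : ℤ) (F : ℂ → ℂ) : Prop :=
  ∀ s : ℂ, 3 / 2 < s.re → HasProd (fun p : Nat.Primes => if Good A B p then
    (1 - (((p : ℕ) : ℂ) - points A B p) * ((p : ℕ) : ℂ) ^ (-s) + ((p : ℕ) : ℂ) ^ (1 - 2 * s))⁻¹ else 1) (F s)

/-- The proportion of the curves of height at most `X` with `L_E(1) ≠ 0`. -/
noncomputable def nonvanishing (L : ℤ × ℤ → ℂ → ℂ) (X : ℕ) : ℝ :=
  open Classical in (((family X).filter fun E => L E 1 ≠ 0).card : ℝ) / (family X).card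

open Classical in
/-- The rank of `E(ℚ)`. -/
noncomputable def rank (A B : ℤ) : ℕ :=
  Module.finrank ℤ ({ a₁ := 0, a₂ := 0, a₃ := 0, a₄ := (A : ℚ), a₆ := (B : ℚ) } : WeierstrassCurve ℚ).toAffine.Point

/-- `p_0(X)`, the proportion of the curves of height at most `X` of rank `0`. -/
noncomputable def rankZero (X : ℕ) : ℝ :=
  (((family X).filter fun E => rank E.1 E.2 = 0).card : ℝ) / (family X).card

open Pool.Agent.X278.AV Pool.Agent.X278.OP

theorem good_iff (A B : ℤ) (p : ℕ) : Good A B p ↔ GoodQ A B p := by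
  unfold Good GoodQ
  rw [← ZMod.intCast_zmod_eq_zero_iff_dvd]
  push_cast
  rfl

theorem family_eq (X : ℕ) : family X = (Fam eH ZH (abH X)).map (finTwoArrowEquiv ℤ).toEmbedding := by
  classical
  ext E
  rw [Finset.mem_map_equiv]
  unfold family Fam
  rw [Finset.mem_filter, Finset.mem_filter, mem_Box, Finset.mem_product, Finset.mem_Icc, Finset.mem_Icc]
  have e0 : (finTwoArrowEquiv ℤ).symm E 0 = E.1 := rfl
  have e1 : (finTwoArrowEquiv ℤ).symm E 1 = E.2 := rfl
  have h1 : (∀ j, |(finTwoArrowEquiv ℤ).symm E j| ≤ (abH X j : ℤ)) ↔ (4 * |E.1| ^ 3 ≤ X ∧ 27 * E.2 ^ 2 ≤ (X : ℤ)) := by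
    rw [Fin.forall_fin_two, e0, e1]
    have h2 : (|E.1| ≤ (abH X 0 : ℤ)) ↔ 4 * |E.1| ^ 3 ≤ (X : ℤ) := by
      have h3 : abH X 0 = aH X := rfl
      rw [h3, Int.abs_eq_natAbs]
      have := le_aH (X := X) (n := E.1.natAbs)
      exact_mod_cast this
    have h4 : (|E.2| ≤ (abH X 1 : ℤ)) ↔ 27 * E.2 ^ 2 ≤ (X : ℤ) := by
      have h3 : abH X 1 = bH X := rfl
      rw [h3, ← sq_abs E.2, Int.abs_eq_natAbs]
      have := le_bH (X := X) (n := E.2.natAbs)
      exact_mod_cast this
    rw [h2, h4]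
  have h2 : Pool.Agent.X278.AV.Min eH ((finTwoArrowEquiv ℤ).symm E) ↔
      (∀ p : ℕ, p.Prime → ¬ ((p : ℤ) ^ 4 ∣ E.1 ∧ (p : ℤ) ^ 6 ∣ E.2)) := by
    unfold Pool.Agent.X278.AV.Min
    refine forall_congr' fun p => forall_congr' fun _ => not_congr ?_
    rw [Fin.forall_fin_two, e0, e1]
    rfl
  have h3 : ZH ((finTwoArrowEquiv ℤ).symm E) ↔ 4 * E.1 ^ 3 + 27 * E.2 ^ 2 = 0 := Iff.rfl
  rw [h1, h2, h3]
  constructor
  · rintro ⟨-, a1, a2, a3⟩
    exact ⟨a3, a2, a1⟩
  · rintro ⟨⟨a1, a2⟩, a3, a4⟩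
    have b1 : |E.1| ≤ (X : ℤ) := by
      have h0 := abs_nonneg E.1
      have : |E.1| ≤ |E.1| ^ 3 := by
        rcases h0.eq_or_lt with h | h
        · rw [← h]; norm_num
        · have : 1 ≤ |E.1| := h
          nlinarith [mul_nonneg h0 h0]
      nlinarith
    have b2 : |E.2| ≤ (X : ℤ) := by
      have h0 := abs_nonneg E.2
      have h5 := sq_abs E.2
      have : |E.2| ≤ |E.2| ^ 2 := by
        rcases h0.eq_or_lt with h | h
        · rw [← h]; norm_num
        · have : 1 ≤ |E.2| := h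
          nlinarith
      nlinarith
    exact ⟨⟨abs_le.1 b1, abs_le.1 b2⟩, a4, a3, a1, a2⟩

theorem card_eq (X : ℕ) : (family X).card = (Fam eH ZH (abH X)).card := by
  rw [family_eq, Finset.card_map]

/-- the local function at a curve -/
theorem ff_eq (A B : ℤ) (p : Nat.Primes) : ff (A : ZMod p) (B : ZMod p) =
    (open Classical in if Good A B p then Real.log (((points A B p : ℝ) + 1) / (p : ℕ)) else 0) := by
  unfold ff
  by_cases h : Good A B p
  · have h' : ¬ ((6 : ZMod p) * (4 * (A : ZMod p) ^ 3 + 27 * (B : ZMod p) ^ 2) = 0) := (good_iff A B p).1 h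
    rw [if_pos h, if_neg h', ZMod.card]
    rfl
  · have h' : (6 : ZMod p) * (4 * (A : ZMod p) ^ 3 + 27 * (B : ZMod p) ^ 2) = 0 := by
      by_contra h2
      exact h ((good_iff A B p).2 h2)
    rw [if_neg h, if_pos h']

theorem log_eq (A B : ℤ) (γ T : ℝ) : logProduct γ T (A, B) =
    ∑' p : Nat.Primes, wr γ (Real.log (p : ℕ) / T) * ff (A : ZMod p) (B : ZMod p) := by
  unfold logProduct
  refine tsum_congr fun p => ?_
  rw [ff_eq]
  split_ifs with h
  · rfl
  · simp

theorem Sm_eq (x : Fin 2 → ℤ) (γ T : ℝ) : Sm (fun (p : Nat.Primes) x => fH p (red p x)) γ T x =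
    logProduct γ T (x 0, x 1) := by
  rw [log_eq]
  rfl

theorem FnH : Fn (fun X => Fam eH ZH (abH X)) (fun (p : Nat.Primes) x => fH p (red p x))
    (fun p h => ExC (∑ j, eH j) (p : ℕ) (fun r => h (fH p r))) 100 (1 / 2) 1 62000 :=
  Fn_fam dataH zeroH (by norm_num) sizeH (fun p => (exH p).trans (by gcongr; norm_num)) exH2

open ProbabilityTheory MeasureTheory in
theorem Phi_zero : Phi 0 = 1 / 2 := by
  unfold Phi
  have hna := nullSingletonClass_gaussianReal (μ := 0) (v := 1) one_ne_zero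
  have h1 : gaussianReal 0 1 (Set.Ici 0) = gaussianReal 0 1 (Set.Iic 0) := by
    have h2 : (gaussianReal 0 1).map (fun x => -x) = gaussianReal 0 1 := by
      rw [gaussianReal_map_neg, neg_zero]
    have h3 : (gaussianReal 0 1).map (fun x => -x) (Set.Ici 0) = gaussianReal 0 1 (Set.Iic 0) := by
      rw [Measure.map_apply measurable_neg measurableSet_Ici]
      congr 1
      ext x
      simp
    rw [← h3, h2]
  have h2 : gaussianReal 0 1 (Set.Ioi 0) = gaussianReal 0 1 (Set.Ici 0) := measure_congr Ioi_ae_eq_Ici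
  have h3 : (gaussianReal 0 1).real (Set.Iic 0) + (gaussianReal 0 1).real (Set.Iic 0)ᶜ = 1 := by
    rw [measureReal_add_measureReal_compl measurableSet_Iic, probReal_univ]
  have h4 : (gaussianReal 0 1).real (Set.Iic (0 : ℝ))ᶜ = (gaussianReal 0 1).real (Set.Iic 0) := by
    rw [Set.compl_Iic]
    unfold Measure.real
    rw [h2, h1]
  rw [h4] at h3
  linarith

/-- **The Gaussian law over all elliptic curves, and the proportion of rank zero.** -/
theorem result (γ : ℝ) (hγ : Real.pi / 2 < γ) :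
    -- absolute convergence
    (∀ (A B : ℤ) (T : ℝ), 0 < T → Summable fun p : Nat.Primes => open Classical in
      if Good A B p then |weight γ (Real.log (p : ℕ) / T) * Real.log (((points A B p : ℝ) + 1) / (p : ℕ))| else 0) ∧
    -- A. the Gaussian law: first `X → ∞`, then `T → ∞`
    (∀ v ε : ℝ, 0 < ε → ∀ᶠ T : ℝ in atTop, ∀ᶠ X : ℕ in atTop, |proportion γ v T X - Phi v| < ε) ∧ Phi 0 = 1 / 2 ∧
    -- B. all the exponential moments
    (∀ (ζ : ℂ) (ε : ℝ), 0 < ε → ∀ᶠ T : ℝ in atTop, ∀ᶠ X : ℕ in atTop,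
      ‖(∑ E ∈ family X, Complex.exp (ζ * (((logProduct γ T E - 1 / 2 * Real.log T) / √(Real.log T) : ℝ) : ℂ))) /
        (family X).card - Complex.exp (ζ ^ 2 / 2)‖ < ε) ∧
    -- C. the other order of the limits
    ∀ L : ℤ × ℤ → ℂ → ℂ,
      (∀ E : ℤ × ℤ, 4 * E.1 ^ 3 + 27 * E.2 ^ 2 ≠ 0 → IsLSeries E.1 E.2 (L E) ∧ AnalyticAt ℂ (L E) 1 ∧
        ∀ x : ℝ, 1 ≤ x → x ≤ 3 / 2 → MeromorphicAt (L E) (x : ℂ)) →
      (∀ E : ℤ × ℤ, 4 * E.1 ^ 3 + 27 * E.2 ^ 2 ≠ 0 → ∃ m : ℕ, analyticOrderAt (L E) 1 = m ∧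
        Tendsto (fun T : ℝ => logProduct γ T E / Real.log T) atTop (𝓝 (m : ℝ))) ∧
      (∀ (v : ℝ) (X : ℕ), Tendsto (fun T => proportion γ v T X) atTop (𝓝 (nonvanishing L X))) ∧
      (Tendsto (nonvanishing L) atTop (𝓝 (1 / 2)) ↔
        ∀ ε : ℝ, 0 < ε → ∀ᶠ X : ℕ in atTop, ∀ᶠ T : ℝ in atTop, |proportion γ 0 T X - 1 / 2| < ε) ∧
      -- the first limit of Q1, if `L(E, 1) ≠ 0` is equivalent to rank zero
      ((∀ E : ℤ × ℤ, 4 * E.1 ^ 3 + 27 * E.2 ^ 2 ≠ 0 → (L E 1 ≠ 0 ↔ rank E.1 E.2 = 0)) →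
        (Tendsto rankZero atTop (𝓝 (1 / 2)) ↔
          ∀ ε : ℝ, 0 < ε → ∀ᶠ X : ℕ in atTop, ∀ᶠ T : ℝ in atTop, |proportion γ 0 T X - 1 / 2| < ε)) := by
  classical
  have hlog : Tendsto (fun T : ℝ => √(Real.log T)) atTop atTop := Real.tendsto_sqrt_atTop.comp Real.tendsto_log_atTop
  refine ⟨?_, ?_, Phi_zero, ?_, fun L hL => ?_⟩
  · intro A B T hT
    refine (FnH.sum γ hT ![A, B]).congr fun p => ?_
    show |wr γ (Real.log (p : ℕ) / T) * ff (A : ZMod p) (B : ZMod p)| = _
    rw [ff_eq]
    split_ifs with h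
    · rfl
    · simp
  · intro v ε hε
    have h1 := FnH.gauss (ν := 1) one_ne_zero γ v ε hε
    filter_upwards [h1] with T h2
    filter_upwards [h2] with X hX
    have e1 : ((family X).filter fun E => (logProduct γ T E - 1 / 2 * Real.log T) / √(Real.log T) ≤ v).card =
        ((Fam eH ZH (abH X)).filter fun i => (Sm (fun (p : Nat.Primes) x => fH p (red p x)) γ T i -
          1 / 2 * Real.log T) / √(Real.log T) ≤ v).card := by
      rw [family_eq, Finset.filter_map, Finset.card_map]
      congr 1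
      refine Finset.filter_congr fun x _ => ?_
      rw [Sm_eq]
      rfl
    unfold proportion Phi
    rw [card_eq, e1]
    exact hX
  · intro ζ ε hε
    have h1 := (Metric.tendsto_nhds.1 (FnH.curry γ ζ)) ε hε
    rw [Filter.eventually_curry_iff] at h1
    filter_upwards [h1] with T h2
    filter_upwards [h2] with X hX
    rw [dist_eq_norm] at hX
    have e1 : (((1 : ℝ) : ℂ) * ζ ^ 2 / 2) = ζ ^ 2 / 2 := by push_cast; ring
    rw [e1] at hX
    have e2 : (∑ E ∈ family X, Complex.exp (ζ * (((logProduct γ T E - 1 / 2 * Real.log T) / √(Real.log T) : ℝ) : ℂ))) /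
        (family X).card = meanC (Fam eH ZH (abH X)) (fun i => Complex.exp (ζ *
          (Yn (fun (p : Nat.Primes) x => fH p (red p x)) γ (1 / 2) (T, X) i : ℝ))) := by
      unfold meanC
      rw [card_eq, family_eq, Finset.sum_map]
      congr 1
      refine Finset.sum_congr rfl fun x _ => ?_
      show Complex.exp (ζ * (((logProduct γ T (x 0, x 1) - 1 / 2 * Real.log T) / √(Real.log T) : ℝ) : ℂ)) =
        Complex.exp (ζ * (((Sm (fun (p : Nat.Primes) x => fH p (red p x)) γ T x - 1 / 2 * Real.log T) /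
          √(Real.log T) : ℝ) : ℂ))
      rw [Sm_eq]
    rw [e2]
    exact hX
  · have hm : ∀ E : ℤ × ℤ, 4 * E.1 ^ 3 + 27 * E.2 ^ 2 ≠ 0 → ∃ m : ℕ, analyticOrderAt (L E) 1 = m ∧
        Tendsto (fun T : ℝ => logProduct γ T E / Real.log T) atTop (𝓝 (m : ℝ)) := by
      intro E hE
      obtain ⟨h1, ha, h2⟩ := hL E hE
      have h3 : ∀ s : ℂ, 3 / 2 < s.re → HasProd (efQ E.1 E.2 s) (L E s) := by
        intro s hs
        have h4 := h1 s hs
        have e1 : efQ E.1 E.2 s = fun p : Nat.Primes => if Good E.1 E.2 p then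
            (1 - (((p : ℕ) : ℂ) - points E.1 E.2 p) * ((p : ℕ) : ℂ) ^ (-s) + ((p : ℕ) : ℂ) ^ (1 - 2 * s))⁻¹
            else 1 := by
          funext p
          unfold efQ
          by_cases h : Good E.1 E.2 p
          · rw [if_pos h, if_pos ((good_iff _ _ _).1 h)]
            rfl
          · rw [if_neg h, if_neg (fun h' => h ((good_iff _ _ _).2 h'))]
        rw [e1]
        exact h4
      obtain ⟨m, hm1, hm2⟩ := SQ_growth E.1 E.2 h3 h2 hγ
      rw [ha.meromorphicOrderAt_eq] at hm1
      obtain ⟨n, hn⟩ : ∃ n : ℕ, analyticOrderAt (L E) 1 = n := by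
        by_cases h5 : analyticOrderAt (L E) 1 = ⊤
        · rw [h5, ENat.map_top] at hm1
          exact absurd hm1 (by simp)
        · obtain ⟨n, hn⟩ := ENat.ne_top_iff_exists.1 h5
          exact ⟨n, hn.symm⟩
      have hmn : (m : ℝ) = n := by
        rw [hn] at hm1
        simp only [ENat.map_coe] at hm1
        have : (n : ℤ) = m := by exact_mod_cast hm1
        rw [← this]
        push_cast
        rfl
      refine ⟨n, hn, ?_⟩
      rw [← hmn]
      refine hm2.lim.congr' ?_
      filter_upwards [eventually_gt_atTop (0 : ℝ)] with T hT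
      congr 1
      unfold SQ
      have hs : Summable fun p : Nat.Primes => ((ff (E.1 : ZMod p) (E.2 : ZMod p) : ℝ) : ℂ) *
          Wt γ (Real.log (p : ℕ) / T) := by
        refine Summable.of_norm (Summable.of_nonneg_of_le (fun _ => norm_nonneg _) (fun p => ?_)
          (wt_sum (γ := γ) hT (B := 100) (by norm_num)))
        rw [norm_mul, Complex.norm_real, Real.norm_eq_abs]
        gcongr
        exact sizeH p ![(E.1 : ZMod p), (E.2 : ZMod p)]
      have e5 : logProduct γ T E = logProduct γ T (E.1, E.2) := rfl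
      rw [e5, log_eq, Complex.re_tsum hs]
      refine tsum_congr fun p => ?_
      rw [Complex.re_ofReal_mul, re_Wt]
      unfold wr
      ring
    have hC2 : ∀ (v : ℝ) (X : ℕ), Tendsto (fun T => proportion γ v T X) atTop (𝓝 (nonvanishing L X)) := by
      intro v X
      have h1 : ∀ E ∈ family X, ∀ᶠ T : ℝ in atTop,
          ((logProduct γ T E - 1 / 2 * Real.log T) / √(Real.log T) ≤ v ↔ L E 1 ≠ 0) := by
        intro E hE
        have hE' : 4 * E.1 ^ 3 + 27 * E.2 ^ 2 ≠ 0 := by
          unfold family at hE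
          exact (Finset.mem_filter.1 hE).2.1
        obtain ⟨m, k1, k2⟩ := hm E hE'
        obtain ⟨-, ha, -⟩ := hL E hE'
        have k3 : L E 1 ≠ 0 ↔ m = 0 := by
          rw [← ha.analyticOrderAt_eq_zero, k1]
          norm_cast
        have k4 : Tendsto (fun T : ℝ => logProduct γ T E / Real.log T - 1 / 2) atTop (𝓝 ((m : ℝ) - 1 / 2)) :=
          k2.sub_const _
        have k5 : ∀ᶠ T : ℝ in atTop, (logProduct γ T E - 1 / 2 * Real.log T) / √(Real.log T) =
            √(Real.log T) * (logProduct γ T E / Real.log T - 1 / 2) := by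
          filter_upwards [eventually_gt_atTop (1 : ℝ)] with T hT
          have hl : 0 < Real.log T := Real.log_pos hT
          have hs : 0 < √(Real.log T) := Real.sqrt_pos.2 hl
          have hss : √(Real.log T) * √(Real.log T) = Real.log T := Real.mul_self_sqrt hl.le
          rw [div_eq_iff hs.ne', mul_right_comm, hss]
          field_simp
        by_cases h0 : m = 0
        · have k6 : Tendsto (fun T : ℝ => √(Real.log T) * (logProduct γ T E / Real.log T - 1 / 2)) atTop atBot := by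
            refine hlog.atTop_mul_neg (C := (m : ℝ) - 1 / 2) ?_ k4
            rw [h0]
            norm_num
          filter_upwards [k5, k6.eventually_le_atBot v] with T a1 a2
          rw [a1, k3]
          exact ⟨fun _ => h0, fun _ => a2⟩
        · have k6 : Tendsto (fun T : ℝ => √(Real.log T) * (logProduct γ T E / Real.log T - 1 / 2)) atTop atTop := by
            refine hlog.atTop_mul_pos (C := (m : ℝ) - 1 / 2) ?_ k4
            have : (1 : ℝ) ≤ m := by exact_mod_cast Nat.one_le_iff_ne_zero.2 h0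
            linarith
          filter_upwards [k5, k6.eventually_gt_atTop v] with T a1 a2
          rw [a1, k3]
          exact ⟨fun h => absurd h (not_le.2 a2), fun h => absurd h h0⟩
      have h2 : ∀ᶠ T : ℝ in atTop, ∀ E ∈ family X,
          ((logProduct γ T E - 1 / 2 * Real.log T) / √(Real.log T) ≤ v ↔ L E 1 ≠ 0) :=
        (Filter.eventually_all_finset (family X)).2 h1
      refine tendsto_const_nhds.congr' ?_
      filter_upwards [h2] with T hT
      unfold proportion nonvanishing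
      rw [Finset.filter_congr hT]
    have hC3 : ∀ ρ : ℕ → ℝ, (∀ X, ρ X = nonvanishing L X) → (Tendsto ρ atTop (𝓝 (1 / 2)) ↔
        ∀ ε : ℝ, 0 < ε → ∀ᶠ X : ℕ in atTop, ∀ᶠ T : ℝ in atTop, |proportion γ 0 T X - 1 / 2| < ε) := by
      intro ρ hρ
      constructor
      · intro h ε hε
        have h1 := (Metric.tendsto_nhds.1 h) ε hε
        filter_upwards [h1] with X hX
        rw [Real.dist_eq, hρ] at hX
        have h2 := ((hC2 0 X).sub_const (1 / 2)).abs
        exact h2.eventually_lt_const hX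
      · intro h
        rw [Metric.tendsto_nhds]
        intro ε hε
        filter_upwards [h (ε / 2) (by positivity)] with X hX
        have h2 := ((hC2 0 X).sub_const (1 / 2)).abs
        have h3 : |nonvanishing L X - 1 / 2| ≤ ε / 2 := le_of_tendsto h2 (hX.mono fun T hT => hT.le)
        rw [Real.dist_eq, hρ]
        linarith
    refine ⟨hm, hC2, hC3 _ fun _ => rfl, fun hr => hC3 _ fun X => ?_⟩
    unfold rankZero nonvanishing
    congr 2
    congr 1
    refine Finset.filter_congr fun E hE => ?_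
    have hE' : 4 * E.1 ^ 3 + 27 * E.2 ^ 2 ≠ 0 := by
      unfold family at hE
      exact (Finset.mem_filter.1 hE).2.1
    exact (hr E hE').symm

end Pool.Agent.Results.MP_6073f3_nt.GaussianByHeight
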