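import Pool.Agent.X278.AV.MomH

/-!
# All elliptic curves over the rational numbers by height: the moments of the products of Birch and Swinnerton-Dyer

For `E : y² = x³ + A x + B` put `N_p = #{affine points modulo p}` and, for fixed `γ > π/2`,

`B_T(E) = ∏_{p ∤ 6 (4 A³ + 27 B²)} ((N_p + 1) / p)^{w(log p / T)}`, `w(u) = cos(γu) / Γ(1 + u)`,

the original product of Birch and Swinnerton-Dyer with a smooth weight (the product over all primes converges
absolutely, since the weight decays faster than every exponential). For ONE curve whose `L`-function is meromorphic at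
the real points of `[1, 3/2]` (all curves, by modularity; nothing is assumed on zeros) `B_T(E) ≍ T^{ord_{s=1} L(E, s)}`.

We compute all moments of these products over the family of the question, ALL elliptic curves over `ℚ` ordered by the
naive height: for every REAL `k` and `T > 0` the average of `B_T(E)^k` over the curves of height `≤ X` converges as
`X → ∞`, to the Euler product `M_k(T)` of the local means, and

`M_k(T) ~ a_k κ₁^k κ₂^{k²} T^{k(k+1)/2}` as `T → ∞`,

with the arithmetic factor `a_k = ∏_p (1 - 1/p)^{k(k+1)/2} φ_p(k) > 0` and constants `κ₁, κ₂ > 0` depending on `γ` only.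
Since `B_T(E)` behaves like `1 / L(E, 1)` if `L(E, 1) ≠ 0`, this is the exponent `r(r-1)/2` of the orthogonal symmetry
for the `r`-th moment of the central values, `r = -k`.

The minimalist conjecture is about the limits in the other order. If `B_T(E)^k` had only the two sizes `1` and `T^k`
(ranks `0` and `1`), each for a half of the curves, uniformly in `T`, the exponent would be `max(0, k)`; it agrees with
`k(k+1)/2` exactly for `k = -1, 0, 1`.
-/

set_option autoImplicit false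

open Filter Topology

namespace Pool.Agent.Results.MP_6073f3_nt.MomentsByHeight

/-- The prime `p` does not divide `6 (4 A³ + 27 B²)`. -/
def Good (A B : ℤ) (p : ℕ) : Prop := ¬ (p : ℤ) ∣ 6 * (4 * A ^ 3 + 27 * B ^ 2)

/-- `N_p`, the number of affine points of `y² = x³ + A x + B` modulo `p`. -/
noncomputable def points (A B : ℤ) (p : ℕ) : ℕ :=
  Nat.card {P : ZMod p × ZMod p // P.2 ^ 2 = P.1 ^ 3 + (A : ZMod p) * P.1 + (B : ZMod p)}

/-- The weight `cos(γu) / Γ(1 + u)`. -/
noncomputable def weight (γ u : ℝ) : ℝ := Real.cos (γ * u) / Real.Gamma (1 + u)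

/-- `B_T(E) = ∏_p ((N_p + 1) / p)^{w(log p / T)}`, over the primes not dividing `6 (4 A³ + 27 B²)`. -/
noncomputable def product (γ T : ℝ) (E : ℤ × ℤ) : ℝ :=
  ∏' p : Nat.Primes, open Classical in
    if Good E.1 E.2 p then (((points E.1 E.2 p : ℝ) + 1) / (p : ℕ)) ^ weight γ (Real.log (p : ℕ) / T) else 1

/-- The curves of height at most `X`: the pairs `(A, B)` with `4 A³ + 27 B² ≠ 0`, such that no prime `p` satisfies
both `p⁴ ∣ A` and `p⁶ ∣ B`, with `4 |A|³ ≤ X` and `27 B² ≤ X` (hence `|A|, |B| ≤ X`). -/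
noncomputable def family (X : ℕ) : Finset (ℤ × ℤ) :=
  open Classical in
  ((Finset.Icc (-(X : ℤ)) X) ×ˢ (Finset.Icc (-(X : ℤ)) X)).filter fun E =>
    4 * E.1 ^ 3 + 27 * E.2 ^ 2 ≠ 0 ∧ (∀ p : ℕ, p.Prime → ¬ ((p : ℤ) ^ 4 ∣ E.1 ∧ (p : ℤ) ^ 6 ∣ E.2)) ∧
      4 * |E.1| ^ 3 ≤ X ∧ 27 * E.2 ^ 2 ≤ X

/-- The average of a function over the curves of height at most `X`. -/
noncomputable def average (X : ℕ) (f : ℤ × ℤ → ℝ) : ℝ := (∑ E ∈ family X, f E) / (family X).card

/-- The local mean `φ_p(x)`: one plus `(1 - p^{-10})⁻¹ p^{-2}` times the sum over the pairs `(a, b)` modulo `p` with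
`6 (4 a³ + 27 b²) ≠ 0` of `((N + 1) / p)^x - 1`, where `N = #{(u, v) : v² = u³ + a u + b}`. -/
noncomputable def localMean (p : Nat.Primes) (x : ℝ) : ℝ :=
  1 + (1 - (((p : ℕ) : ℝ) ^ 10)⁻¹)⁻¹ * (∑ a : ZMod p, ∑ b : ZMod p, open Classical in
    if 6 * (4 * a ^ 3 + 27 * b ^ 2) = 0 then 0 else
      (((Nat.card {P : ZMod p × ZMod p // P.2 ^ 2 = P.1 ^ 3 + a * P.1 + b} : ℝ) + 1) / (p : ℕ)) ^ x - 1) /
        ((p : ℕ) : ℝ) ^ 2

/-- `M_k(T)`. -/
noncomputable def M (γ k T : ℝ) : ℝ := ∏' p : Nat.Primes, localMean p (k * weight γ (Real.log (p : ℕ) / T))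

/-- The factor of `a_k` at `p`. -/
noncomputable def arithFactor (k : ℝ) (p : Nat.Primes) : ℝ :=
  (1 - (((p : ℕ) : ℝ))⁻¹) ^ (k * (k + 1) / 2) * localMean p k

/-- The arithmetic factor `a_k`. -/
noncomputable def arith (k : ℝ) : ℝ := ∏' p : Nat.Primes, arithFactor k p

open Classical in
/-- `F` is the incomplete `L`-series of `y² = x³ + A x + B` for `Re s > 3/2`. -/
def IsLSeries (A B : ℤ) (F : ℂ → ℂ) : Prop :=
  ∀ s : ℂ, 3 / 2 < s.re → HasProd (fun p : Nat.Primes => if Good A B p then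
    (1 - (((p : ℕ) : ℂ) - points A B p) * ((p : ℕ) : ℂ) ^ (-s) + ((p : ℕ) : ℂ) ^ (1 - 2 * s))⁻¹ else 1) (F s)

open Pool.Agent.X278.AV Pool.Agent.X278.OP

theorem good_iff (A B : ℤ) (p : ℕ) : Good A B p ↔ GoodQ A B p := by
  unfold Good GoodQ
  rw [← ZMod.intCast_zmod_eq_zero_iff_dvd]
  push_cast
  rfl

theorem family_eq (X : ℕ) : family X = (Fam eH ZH (abH X)).map (finTwoArrowEquiv ℤ).toEmbedding := by
  classical
  ext E
  rw [Finset.mem_map_equiv]
  unfold family Fam
  rw [Finset.mem_filter, Finset.mem_filter, mem_Box, Finset.mem_product, Finset.mem_Icc, Finset.mem_Icc]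
  have e0 : (finTwoArrowEquiv ℤ).symm E 0 = E.1 := rfl
  have e1 : (finTwoArrowEquiv ℤ).symm E 1 = E.2 := rfl
  have h1 : (∀ j, |(finTwoArrowEquiv ℤ).symm E j| ≤ (abH X j : ℤ)) ↔ (4 * |E.1| ^ 3 ≤ X ∧ 27 * E.2 ^ 2 ≤ (X : ℤ)) := by
    rw [Fin.forall_fin_two, e0, e1]
    have h2 : (|E.1| ≤ (abH X 0 : ℤ)) ↔ 4 * |E.1| ^ 3 ≤ (X : ℤ) := by
      have h3 : abH X 0 = aH X := rfl
      rw [h3, Int.abs_eq_natAbs]
      have := le_aH (X := X) (n := E.1.natAbs)
      exact_mod_cast this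
    have h4 : (|E.2| ≤ (abH X 1 : ℤ)) ↔ 27 * E.2 ^ 2 ≤ (X : ℤ) := by
      have h3 : abH X 1 = bH X := rfl
      rw [h3, ← sq_abs E.2, Int.abs_eq_natAbs]
      have := le_bH (X := X) (n := E.2.natAbs)
      exact_mod_cast this
    rw [h2, h4]
  have h2 : Pool.Agent.X278.AV.Min eH ((finTwoArrowEquiv ℤ).symm E) ↔
      (∀ p : ℕ, p.Prime → ¬ ((p : ℤ) ^ 4 ∣ E.1 ∧ (p : ℤ) ^ 6 ∣ E.2)) := by
    unfold Pool.Agent.X278.AV.Min
    refine forall_congr' fun p => forall_congr' fun _ => not_congr ?_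
    rw [Fin.forall_fin_two, e0, e1]
    rfl
  have h3 : ZH ((finTwoArrowEquiv ℤ).symm E) ↔ 4 * E.1 ^ 3 + 27 * E.2 ^ 2 = 0 := Iff.rfl
  rw [h1, h2, h3]
  constructor
  · rintro ⟨-, a1, a2, a3⟩
    exact ⟨a3, a2, a1⟩
  · rintro ⟨⟨a1, a2⟩, a3, a4⟩
    have b1 : |E.1| ≤ (X : ℤ) := by
      have h0 := abs_nonneg E.1
      have : |E.1| ≤ |E.1| ^ 3 := by
        rcases h0.eq_or_lt with h | h
        · rw [← h]; norm_num
        · have : 1 ≤ |E.1| := h
          nlinarith [mul_nonneg h0 h0]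
      nlinarith
    have b2 : |E.2| ≤ (X : ℤ) := by
      have h0 := abs_nonneg E.2
      have h5 := sq_abs E.2
      have : |E.2| ≤ |E.2| ^ 2 := by
        rcases h0.eq_or_lt with h | h
        · rw [← h]; norm_num
        · have : 1 ≤ |E.2| := h
          nlinarith
      nlinarith
    exact ⟨⟨abs_le.1 b1, abs_le.1 b2⟩, a4, a3, a1, a2⟩

theorem card_eq (X : ℕ) : (family X).card = (Fam eH ZH (abH X)).card := by
  rw [family_eq, Finset.card_map]

/-- the local function at a curve -/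
theorem ff_eq (A B : ℤ) (p : Nat.Primes) : ff (A : ZMod p) (B : ZMod p) =
    (open Classical in if Good A B p then Real.log (((points A B p : ℝ) + 1) / (p : ℕ)) else 0) := by
  unfold ff
  by_cases h : Good A B p
  · have h' : ¬ ((6 : ZMod p) * (4 * (A : ZMod p) ^ 3 + 27 * (B : ZMod p) ^ 2) = 0) := (good_iff A B p).1 h
    rw [if_pos h, if_neg h', ZMod.card]
    rfl
  · have h' : (6 : ZMod p) * (4 * (A : ZMod p) ^ 3 + 27 * (B : ZMod p) ^ 2) = 0 := by
      by_contra h2
      exact h ((good_iff A B p).2 h2)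
    rw [if_neg h, if_pos h']

theorem exp_pow (A B : ℤ) (p : Nat.Primes) (y : ℝ) : Real.exp (y * ff (A : ZMod p) (B : ZMod p)) =
    (open Classical in if Good A B p then (((points A B p : ℝ) + 1) / (p : ℕ)) ^ y else 1) := by
  rw [ff_eq]
  have hp0 : (0 : ℝ) < (p : ℕ) := by exact_mod_cast p.2.pos
  split_ifs with h
  · rw [Real.rpow_def_of_pos (by positivity), mul_comm]
  · simp

theorem log_sum (A B : ℤ) (γ : ℝ) {T : ℝ} (hT : 0 < T) :
    Summable fun p : Nat.Primes => |wr γ (Real.log (p : ℕ) / T) * ff (A : ZMod p) (B : ZMod p)| :=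
  wr_f_sum (f := fH) (B := 100) (by norm_num) sizeH γ hT ![A, B]

theorem product_eq (A B : ℤ) (γ : ℝ) {T : ℝ} (hT : 0 < T) : product γ T (A, B) =
    Real.exp (∑' p : Nat.Primes, wr γ (Real.log (p : ℕ) / T) * ff (A : ZMod p) (B : ZMod p)) := by
  have h1 := (log_sum A B γ hT).of_abs
  have h3 : HasProd (fun p : Nat.Primes => Real.exp (wr γ (Real.log (p : ℕ) / T) * ff (A : ZMod p) (B : ZMod p)))
      (Real.exp (∑' p : Nat.Primes, wr γ (Real.log (p : ℕ) / T) * ff (A : ZMod p) (B : ZMod p))) := by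
    refine Real.hasProd_of_hasSum_log (fun p => Real.exp_pos _) ?_
    simp only [Real.log_exp]
    exact h1.hasSum
  rw [← h3.tprod_eq]
  unfold product
  exact tprod_congr fun p => (exp_pow A B p _).symm

theorem localMean_eq : localMean = phF (∑ j, eH j) fH := by
  funext p x
  have h10 : ∑ j, eH j = 10 := by simp [eH]
  unfold phF Ex avg localMean
  rw [h10]
  have e1 : ∑ r : Fin 2 → ZMod p, (Real.exp (x * fH p r) - 1) =
      ∑ a : ZMod p, ∑ b : ZMod p, (Real.exp (x * ff a b) - 1) := by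
    rw [← Fintype.sum_prod_type' (fun a b : ZMod p => Real.exp (x * ff a b) - 1)]
    exact Fintype.sum_equiv (finTwoArrowEquiv _) _ _ fun r => rfl
  have e2 : (∑ a : ZMod p, ∑ b : ZMod p, (open Classical in if 6 * (4 * a ^ 3 + 27 * b ^ 2) = 0 then (0 : ℝ) else
      (((Nat.card {P : ZMod p × ZMod p // P.2 ^ 2 = P.1 ^ 3 + a * P.1 + b} : ℝ) + 1) / (p : ℕ)) ^ x - 1)) =
      ∑ a : ZMod p, ∑ b : ZMod p, (Real.exp (x * ff a b) - 1) := by
    refine Finset.sum_congr rfl fun a _ => Finset.sum_congr rfl fun b _ => ?_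
    have hp0 : (0 : ℝ) < (p : ℕ) := by exact_mod_cast p.2.pos
    unfold ff
    by_cases h : 6 * (4 * a ^ 3 + 27 * b ^ 2) = 0
    · rw [if_pos h, if_pos h]
      simp
    · rw [if_neg h, if_neg h, ZMod.card, Real.rpow_def_of_pos (by positivity), mul_comm x]
      rfl
  rw [e1, e2]
  ring

/-- **Moments of the products of Birch and Swinnerton-Dyer over all elliptic curves.** -/
theorem result (γ : ℝ) (hγ : Real.pi / 2 < γ) : ∃ κ₁ κ₂ : ℝ, 0 < κ₁ ∧ 0 < κ₂ ∧
    -- absolute convergence of the products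
    (∀ (A B : ℤ) (T : ℝ), 0 < T → Summable fun p : Nat.Primes => open Classical in
      if Good A B p then |weight γ (Real.log (p : ℕ) / T) * Real.log (((points A B p : ℝ) + 1) / (p : ℕ))| else 0) ∧
    -- A. the moments for fixed `T`
    (∀ k T : ℝ, 0 < T → Tendsto (fun X : ℕ => average X fun E => product γ T E ^ k) atTop (𝓝 (M γ k T))) ∧
    -- B. their asymptotics
    (∀ k : ℝ, (Summable fun p : Nat.Primes => Real.log (arithFactor k p)) ∧ 0 < arith k ∧
      Tendsto (fun T : ℝ => M γ k T / T ^ (k * (k + 1) / 2)) atTop (𝓝 (arith k * κ₁ ^ k * κ₂ ^ (k ^ 2)))) ∧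
    -- C. a single curve
    (∀ A B : ℤ, 4 * A ^ 3 + 27 * B ^ 2 ≠ 0 → ∀ L : ℂ → ℂ, IsLSeries A B L →
      (∀ x : ℝ, 1 ≤ x → x ≤ 3 / 2 → MeromorphicAt L (x : ℂ)) →
      ∃ (m : ℤ) (c C : ℝ), meromorphicOrderAt L 1 = m ∧ 0 < c ∧
        ∀ᶠ T : ℝ in atTop, c * T ^ m ≤ product γ T (A, B) ∧ product γ T (A, B) ≤ C * T ^ m) := by
  classical
  obtain ⟨κ₁, κ₂, hκ₁, hκ₂, hmain⟩ := prod_asymp γ (1 / 2) (1 / 2)
  have h100 : (0 : ℝ) ≤ 100 := by norm_num
  refine ⟨κ₁, κ₂, hκ₁, hκ₂, ?_, ?_, ?_, ?_⟩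
  · intro A B T hT
    refine (log_sum A B γ hT).congr fun p => ?_
    rw [ff_eq]
    split_ifs with h
    · rfl
    · simp
  · intro k T hT
    have h1 := Fam_pow dataH (f := fH) zeroH h100 sizeH γ k hT
    have h2 : (∏' p : Nat.Primes, phF (∑ j, eH j) fH p (k * wr γ (Real.log (p : ℕ) / T))) = M γ k T := by
      unfold M
      rw [localMean_eq]
      rfl
    rw [h2] at h1
    refine h1.congr fun X => ?_
    unfold mean average
    rw [card_eq, family_eq, Finset.sum_map]
    congr 1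
    refine Finset.sum_congr rfl fun x _ => ?_
    show Real.exp (k * ∑' p : Nat.Primes, wr γ (Real.log (p : ℕ) / T) * ff ((x 0 : ℤ) : ZMod p) ((x 1 : ℤ) : ZMod p)) =
      product γ T (x 0, x 1) ^ k
    rw [product_eq _ _ γ hT, ← Real.exp_mul, mul_comm k]
  · intro k
    have hpos : ∀ (p : Nat.Primes) (x : ℝ), 0 < localMean p x := fun p x => by
      rw [localMean_eq]
      exact phF_pos dataH zeroH h100 sizeH p x
    have hcont : ∀ p : Nat.Primes, Continuous (localMean p) := fun p => by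
      rw [localMean_eq]
      exact phF_cont _ _ p
    have hexp : ∀ K : ℝ, ∃ C : ℝ, ∀ (p : Nat.Primes) (x : ℝ), |x| ≤ K →
        |Real.log (localMean p x) - (1 / 2 * x + 1 / 2 * x ^ 2) / (p : ℕ)| ≤ C / (√((p : ℕ) : ℝ) * (p : ℕ)) := by
      rw [localMean_eq]
      exact phF_exp dataH zeroH h100 sizeH exH exH2
    obtain ⟨h1, -, h3⟩ := hmain localMean hpos hcont hexp k
    have hp1 : ∀ p : Nat.Primes, 0 < 1 - (((p : ℕ) : ℝ))⁻¹ := fun p => by
      have := inv_half p
      linarith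
    have hexpo : (1 / 2 * k + 1 / 2 * k ^ 2 : ℝ) = k * (k + 1) / 2 := by ring
    rw [hexpo] at h1 h3
    have e1 : ∀ p : Nat.Primes, Real.log (arithFactor k p) =
        k * (k + 1) / 2 * Real.log (1 - (((p : ℕ) : ℝ))⁻¹) + Real.log (localMean p k) := by
      intro p
      unfold arithFactor
      rw [Real.log_mul (Real.rpow_pos_of_pos (hp1 p) _).ne' (hpos p k).ne', Real.log_rpow (hp1 p)]
    have hs1 : Summable fun p : Nat.Primes => Real.log (arithFactor k p) := h1.congr fun p => (e1 p).symm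
    refine ⟨hs1, ?_, h3⟩
    have e2 : Real.exp (∑' p, Real.log (arithFactor k p)) = arith k :=
      Real.rexp_tsum_eq_tprod (f := arithFactor k)
        (fun p => mul_pos (Real.rpow_pos_of_pos (hp1 p) _) (hpos p k)) hs1
    rw [← e2]
    exact Real.exp_pos _
  · intro A B _ L hL hm
    have h3 : ∀ s : ℂ, 3 / 2 < s.re → HasProd (efQ A B s) (L s) := by
      intro s hs
      have h4 := hL s hs
      have e1 : efQ A B s = fun p : Nat.Primes => if Good A B p then
          (1 - (((p : ℕ) : ℂ) - points A B p) * ((p : ℕ) : ℂ) ^ (-s) + ((p : ℕ) : ℂ) ^ (1 - 2 * s))⁻¹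
          else 1 := by
        funext p
        unfold efQ
        by_cases h : Good A B p
        · rw [if_pos h, if_pos ((good_iff _ _ _).1 h)]
          rfl
        · rw [if_neg h, if_neg (fun h' => h ((good_iff _ _ _).2 h'))]
      rw [e1]
      exact h4
    obtain ⟨m, hm1, hm2⟩ := SQ_growth A B h3 hm hγ
    obtain ⟨c, C, hc, hb⟩ := hm2.norm_exp
    refine ⟨m, c, C, hm1, hc, ?_⟩
    filter_upwards [hb, eventually_gt_atTop (0 : ℝ)] with T h4 hT
    have e1 : product γ T (A, B) = ‖Complex.exp (SQ A B γ T)‖ := by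
      rw [Complex.norm_exp, product_eq A B γ hT]
      congr 1
      unfold SQ
      have hs : Summable fun p : Nat.Primes => ((ff (A : ZMod p) (B : ZMod p) : ℝ) : ℂ) * Wt γ (Real.log (p : ℕ) / T) := by
        refine Summable.of_norm (Summable.of_nonneg_of_le (fun _ => norm_nonneg _) (fun p => ?_)
          (wt_sum (γ := γ) hT h100))
        rw [norm_mul, Complex.norm_real, Real.norm_eq_abs]
        gcongr
        exact sizeH p ![(A : ZMod p), (B : ZMod p)]
      rw [Complex.re_tsum hs]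
      refine tsum_congr fun p => ?_
      rw [Complex.re_ofReal_mul, re_Wt]
      unfold wr
      ring
    rw [e1]
    exact h4

end Pool.Agent.Results.MP_6073f3_nt.MomentsByHeight
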