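import Mathlib
import Pool.Agent.Y667.QKR.Main
import Pool.Agent.Y667.RP.Disc
import Pool.Agent.Y667.SX.Main
import Pool.Agent.W672.FK.Lowf
import Pool.Agent.W307.RT.Tors
import Pool.Agent.X293.CO.Cond

/-!
# Minimal ranks for `2 ^ m` quadratic twists at once, in the three orderings

All elliptic curves `E` over `ℚ` with full rational 2-torsion, ordered by the conductor, by the minimal
discriminant or by the naive height. For all `m` and `N` there is a finite list of tuples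
`(d_1, ..., d_m)`, `d_i = q_i q'_i` with `2 m` distinct primes `q_i, q'_i > N`, and `δ > 0` such that
for all large `Z` for some tuple of the list at least a proportion `δ` of the curves of size at most
`Z` satisfies: all the `2 ^ m` quadratic twists `E_D` of `E` by the products `D` of the `d_i` have
root number `1` and rank `0`, the rank which the minimalist conjecture predicts.
-/

set_option autoImplicit false

namespace Pool.Agent.Results.MP_6073f3_nt.TwistsThreeOrderings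

open Finset Filter Topology

open Pool.Agent.TH841.SH.D (Sha)

open Pool.Agent.Y667.SX (Sel2H)

/-- the curve `y² = x³ + A x + B` over `ℚ` -/
def E (A B : ℤ) : WeierstrassCurve ℚ := ⟨0, 0, 0, (A : ℚ), (B : ℚ)⟩

/-- the absolute value of the minimal discriminant of an elliptic curve `W` over `ℚ`: the smallest
absolute value of the discriminant of a Weierstrass equation `V` with integer coefficients which is
isomorphic to `W` over `ℚ` -/
noncomputable def minDisc (W : WeierstrassCurve ℚ) : ℕ :=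
  sInf {n : ℕ | ∃ (V : WeierstrassCurve ℤ) (C : WeierstrassCurve.VariableChange ℚ),
    C • W = V.map (Int.castRingHom ℚ) ∧ n = V.Δ.natAbs}

/-- the naive height of `y² = x³ + A x + B` is at most `Z` -/
def HeightLe (c : ℤ × ℤ) (Z : ℕ) : Prop := 4 * |c.1| ^ 3 ≤ Z ∧ 27 * c.2 ^ 2 ≤ Z

/-- the minimal discriminant of `y² = x³ + A x + B` is at most `Z` in absolute value -/
def DiscLe (c : ℤ × ℤ) (Z : ℕ) : Prop := minDisc (E c.1 c.2) ≤ Z

/-- the prime-to-6 part of the conductor of `y² = x³ + A x + B` (there is no prime `p` with `p⁴ ∣ A`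
and `p⁶ ∣ B`): the product over the primes `p ≥ 5` dividing `4 A³ + 27 B²` of `p` (multiplicative
reduction: `p ∤ A`) or `p²` (additive reduction: `p ∣ A`) -/
def Cond6 (c : ℤ × ℤ) : ℕ :=
  ∏ p ∈ (Int.natAbs (4 * c.1 ^ 3 + 27 * c.2 ^ 2)).primeFactors.filter (fun p => 5 ≤ p),
    if (p : ℤ) ∣ c.1 then p ^ 2 else p

/-- the conductor is at most `Z`, where `f c` is the part of the conductor at the primes `2`
and `3` -/
def CondLe (f : ℤ × ℤ → ℕ) (c : ℤ × ℤ) (Z : ℕ) : Prop := f c * Cond6 c ≤ Z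

/-- the three orderings: by the naive height, by the minimal discriminant, by the conductor (`f` may
be any function with values between `1` and `2 ^ 8 * 3 ^ 5`; the part of the conductor at the primes
`2` and `3` is such a function) -/
def IsOrdering (I : ℤ × ℤ → ℕ → Prop) : Prop :=
  I = HeightLe ∨ I = DiscLe ∨
    ∃ f : ℤ × ℤ → ℕ, (∀ c, 1 ≤ f c ∧ f c ≤ 2 ^ 8 * 3 ^ 5) ∧ I = CondLe f

/-- The pairs `(A, B)` of integers such that `4 A³ + 27 B² ≠ 0`, there is no prime `p` with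
`p⁴ ∣ A` and `p⁶ ∣ B`, `Z/2 x Z/2` embeds in the group of the rational points of
`y² = x³ + A x + B`, and the size is at most `Z`. Every elliptic curve over `ℚ` with full rational
2-torsion is isomorphic to `E A B` for exactly one pair with the first three properties. -/
def Fam (I : ℤ × ℤ → ℕ → Prop) (Z : ℕ) : Set (ℤ × ℤ) :=
  {c : ℤ × ℤ | 4 * c.1 ^ 3 + 27 * c.2 ^ 2 ≠ 0 ∧
    (∀ p : ℕ, p.Prime → ¬ ((p : ℤ) ^ 4 ∣ c.1 ∧ (p : ℤ) ^ 6 ∣ c.2)) ∧
    (∃ f : ZMod 2 × ZMod 2 →+ (E c.1 c.2).toAffine.Point, Function.Injective f) ∧ I c Z}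

/-- the proportion of the curves of `S` among the curves of size at most `Z` -/
noncomputable def proportion (I : ℤ × ℤ → ℕ → Prop) (S : Set (ℤ × ℤ)) (Z : ℕ) : ℝ :=
  ((Fam I Z ∩ S).ncard : ℝ) / (Fam I Z).ncard

lemma FamH_eq (H : ℕ) : Fam HeightLe H = (Pool.Agent.W307.RT.Cv 2 H : Set (ℤ × ℤ)) := by
  classical
  ext c
  have h : Pool.Agent.W307.RT.HasT 2 (Pool.Agent.W307.RT.Sh c.1 c.2) ↔
    ∃ f : ZMod 2 × ZMod 2 →+ (E c.1 c.2).toAffine.Point, Function.Injective f :=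
    Pool.Agent.W307.RT.tors_iff
  unfold Fam HeightLe Pool.Agent.W307.RT.Cv
  rw [Set.mem_ofPred_eq, mem_coe, mem_filter, h, mem_product, mem_Icc, mem_Icc]
  constructor
  · rintro ⟨h1, h2, h3, h4, h5⟩
    refine ⟨⟨?_, ?_⟩, h1, h4, h5, h2, h3⟩
    · rw [← abs_le]
      have h0 := abs_nonneg c.1
      rcases eq_or_lt_of_le h0 with h6 | h6
      · rw [← h6]; positivity
      · have : 1 ≤ |c.1| := h6
        nlinarith [mul_nonneg h0 h0, mul_self_nonneg (|c.1| - 1)]
    · rw [← abs_le]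
      have h0 := abs_nonneg c.2
      rw [← sq_abs] at h5
      rcases eq_or_lt_of_le h0 with h6 | h6
      · rw [← h6]; positivity
      · have : 1 ≤ |c.2| := h6
        nlinarith
  · rintro ⟨-, h1, h4, h5, h2, h3⟩
    exact ⟨h1, h2, h3, h4, h5⟩

lemma FamD_eq (D : ℕ) : Fam DiscLe D = (Pool.Agent.TH344.DS.Dv D : Set (ℤ × ℤ)) := by
  classical
  have h0 : Fam DiscLe D = Pool.Agent.W307.RS.DvS 2 D := by
    ext c
    have h : Pool.Agent.W307.RT.HasT 2 (Pool.Agent.W307.RT.Sh c.1 c.2) ↔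
        ∃ f : ZMod 2 × ZMod 2 →+ (E c.1 c.2).toAffine.Point, Function.Injective f :=
      Pool.Agent.W307.RT.tors_iff
    unfold Fam Pool.Agent.W307.RS.DvS
    rw [Set.mem_ofPred_eq, Set.mem_ofPred_eq, h]
    exact Iff.rfl
  rw [h0]
  unfold Pool.Agent.TH344.DS.Dv
  rw [dif_pos (Pool.Agent.TH344.DS.excd.1 D), Set.Finite.coe_toFinset]

/-- The number of these curves tends to infinity (ordering by height). -/
lemma tendstoH : Tendsto (fun Z : ℕ => (Fam HeightLe Z).ncard) atTop atTop := by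
  simp only [FamH_eq, Set.ncard_coe_finset]
  exact Pool.Agent.W307.RT.tendsto_of_low Pool.Agent.W672.FK.lowf

/-- The number of these curves tends to infinity (ordering by the minimal discriminant). -/
lemma tendstoD : Tendsto (fun Z : ℕ => (Fam DiscLe Z).ncard) atTop atTop := by
  have h1 := Pool.Agent.W307.RT.tendsto_of_low Pool.Agent.W672.FK.lowf
  have h2 : Tendsto (fun D : ℕ => (Pool.Agent.W307.RT.Cv 2 (D / 32)).card) atTop atTop :=
    h1.comp (Nat.tendsto_div_const_atTop (by norm_num))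
  obtain ⟨hD1, hD2, hD3⟩ := Pool.Agent.TH344.DS.excd
  refine tendsto_atTop_mono (fun D => ?_) h2
  have h3 : (Pool.Agent.TH344.DS.Dv D : Set (ℤ × ℤ)) = Pool.Agent.W307.RS.DvS 2 D := by
    unfold Pool.Agent.TH344.DS.Dv
    rw [dif_pos (hD1 D), Set.Finite.coe_toFinset]
  rw [FamD_eq, h3, ← Set.ncard_coe_finset]
  exact Set.ncard_le_ncard (Pool.Agent.W307.RS.Cv_sub Pool.Agent.W554.RS.mdl 2 (D / 32) D
    (Nat.mul_div_le D 32)) (hD1 D)

/-- the property without the size -/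
def Pr (c : ℤ × ℤ) : Prop := 4 * c.1 ^ 3 + 27 * c.2 ^ 2 ≠ 0 ∧
    (∀ p : ℕ, p.Prime → ¬ ((p : ℤ) ^ 4 ∣ c.1 ∧ (p : ℤ) ^ 6 ∣ c.2)) ∧
    (∃ g : ZMod 2 × ZMod 2 →+ (E c.1 c.2).toAffine.Point, Function.Injective g)

lemma good : Pool.Agent.Y679.Cr.Good Pr := by
  classical
  refine ⟨fun c hc => ⟨?_, ?_⟩, fun H c hc => ?_, Pool.Agent.W672.FK.lowf⟩
  · exact Pool.Agent.Y679.Cr.isMin_of hc.1 hc.2.1
  · exact Pool.Agent.Y679.Cr.full_of (Pool.Agent.W307.RT.tors_iff.2 hc.2.2)
  · unfold Pool.Agent.W307.RT.Cv at hc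
    obtain ⟨-, h1, -, -, h2, h3⟩ := mem_filter.1 hc
    exact ⟨h1, h2, Pool.Agent.W307.RT.tors_iff.1 h3⟩

lemma cond_eq (c : ℤ × ℤ) : Pool.Agent.Y679.Cr.cs c = Cond6 c := by
  unfold Pool.Agent.Y679.Cr.cs Pool.Agent.H925R.Szpiro.condS Cond6
  rw [Pool.Agent.Y679.Cr.D_neg, Int.natAbs_neg]
  refine prod_congr rfl fun p _ => ?_
  by_cases h : (p : ℤ) ∣ c.1
  · rw [if_pos h, if_pos (Int.dvd_neg.2 h)]
  · rw [if_neg h, if_neg fun h' => h (Int.dvd_neg.1 h')]

lemma bdd {f : ℤ × ℤ → ℕ} (hf : ∀ c, 1 ≤ f c ∧ f c ≤ 2 ^ 8 * 3 ^ 5) : Pool.Agent.Y679.Cr.Bdd f :=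
  fun c => ⟨(hf c).1, (hf c).2.trans (by norm_num)⟩

lemma FamC_eq (f : ℤ × ℤ → ℕ) (Z : ℕ) : Fam (CondLe f) Z = Pool.Agent.Y679.Cr.Gm Pr f Z := by
  ext c
  unfold Fam CondLe Pool.Agent.Y679.Cr.Gm
  rw [Set.mem_ofPred_eq, Set.mem_ofPred_eq, cond_eq]
  exact ⟨fun h => ⟨⟨h.1, h.2.1, h.2.2.1⟩, h.2.2.2⟩, fun h => ⟨h.1.1, h.1.2.1, h.1.2.2, h.2⟩⟩

/-- the Mordell-Weil rank -/
noncomputable def rank (c : ℤ × ℤ) : ℕ := Module.finrank ℤ (E c.1 c.2).toAffine.Point

/-- `a_p = p + 1 - #V(𝔽_p)`, that is `p` minus the number of the affine solutions of the Weierstrass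
equation modulo `p`; for a prime of multiplicative reduction this is `1` (split) or `-1`
(non-split) -/
noncomputable def ap (V : WeierstrassCurve ℤ) (p : ℕ) : ℤ :=
  p - Nat.card {z : ZMod p × ZMod p // z.2 ^ 2 + V.a₁ * z.1 * z.2 + V.a₃ * z.2 =
    z.1 ^ 3 + V.a₂ * z.1 ^ 2 + V.a₄ * z.1 + V.a₆}

/-- the equation with integer coefficients is nonsingular over `ℚ` and at every prime the reduction
is good or multiplicative (then it is a minimal equation) -/
def Semistable (V : WeierstrassCurve ℤ) : Prop :=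
  V.Δ ≠ 0 ∧ ∀ p : ℕ, p.Prime → (p : ℤ) ∣ V.Δ → ¬ (p : ℤ) ∣ V.c₄

/-- the conductor of a semistable curve -/
def conductor (V : WeierstrassCurve ℤ) : ℕ := ∏ p ∈ V.Δ.natAbs.primeFactors, p

/-- The root number of a semistable curve: the product of the local root numbers `-1` at infinity
and `-a_p` at the primes of bad (multiplicative) reduction. -/
noncomputable def wSemi (V : WeierstrassCurve ℤ) : ℤ :=
  -∏ p ∈ V.Δ.natAbs.primeFactors, (-ap V p)

/-- the quadratic twist by `d` of the curve `V` (the curve `y² = x³ + b₂ x² + 8 b₄ x + 16 b₆`) -/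
def twist (V : WeierstrassCurve ℤ) (d : ℕ) : WeierstrassCurve ℚ :=
  ⟨0, (d : ℚ) * V.b₂, 0, 8 * (d : ℚ) ^ 2 * V.b₄, 16 * (d : ℚ) ^ 3 * V.b₆⟩

/-- `w` is the root number of `W`, for the quadratic twists `W` of a semistable curve `V` of conductor
`N` by a positive fundamental discriminant `d ≡ 1` modulo `4` prime to `N` (`d = 1` allowed): it is
`χ_d(-N) w_V`, where `χ_d(-N) = χ_d(N)` is the Jacobi symbol `(N / d)` -/
def HasRootNumber (W : WeierstrassCurve ℚ) (w : ℤ) : Prop :=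
  ∃ (V : WeierstrassCurve ℤ) (d : ℕ), Semistable V ∧ Squarefree d ∧ d % 4 = 1 ∧
    d.Coprime V.Δ.natAbs ∧ (∃ C : WeierstrassCurve.VariableChange ℚ, C • W = twist V d) ∧
    w = jacobiSym (conductor V) d * wSemi V

/-- The tuples `(q_1 q'_1, ..., q_m q'_m)`, where the `q_i` and `q'_i` are `2 m` distinct primes, all
larger than `N`. -/
def Tuple {m : ℕ} (N : ℕ) (d : Fin m → ℕ) : Prop :=
  ∃ q q' : Fin m → ℕ, (∀ i, d i = q i * q' i) ∧ (∀ i, (q i).Prime ∧ N < q i) ∧
    (∀ i, (q' i).Prime ∧ N < q' i) ∧ Function.Injective q ∧ Function.Injective q' ∧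
    ∀ i j, q i ≠ q' j

/-- the quadratic twist of `y² = x³ + A x + B`, `c = (A, B)`, by `D = ∏ d i`, `i` in `T`: the curve
`y² = x³ + D² A x + D³ B` -/
def tw {m : ℕ} (d : Fin m → ℕ) (T : Finset (Fin m)) (c : ℤ × ℤ) : ℤ × ℤ :=
  ((∏ i ∈ T, (d i : ℤ)) ^ 2 * c.1, (∏ i ∈ T, (d i : ℤ)) ^ 3 * c.2)

/-- The curves `E` all of whose `2 ^ m` quadratic twists `E_D` by the products `D` of the `d i` have
rank `0` and root number `1`, with `Sel₂(E_D) = ker (H¹(ℚ, E_D[2]) → ∏ H¹(ℚ_v, E_D))` (`Sel2H`) of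
order four and no element of order two in `Ш(E_D)`. -/
def MinimalTwists {m : ℕ} (d : Fin m → ℕ) : Set (ℤ × ℤ) :=
  {c | ∀ T : Finset (Fin m), rank (tw d T c) = 0 ∧
    HasRootNumber (E (tw d T c).1 (tw d T c).2) 1 ∧
    Nat.card (Sel2H (E (tw d T c).1 (tw d T c).2)) = 4 ∧
    ∀ x : Sha (E (tw d T c).1 (tw d T c).2), x + x = 0 → x = 0}

lemma good_of {m N : ℕ} {d : Fin m → ℕ} (hd : Tuple N d) {c : ℤ × ℤ}
    (hD : 4 * c.1 ^ 3 + 27 * c.2 ^ 2 ≠ 0)
    (hT : ∃ f : ZMod 2 × ZMod 2 →+ (E c.1 c.2).toAffine.Point, Function.Injective f)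
    (h : Pool.Agent.Y667.QK.R.TwR (fun j => (d j : ℤ)) c) : c ∈ MinimalTwists d := by
  intro T
  have hT' := Pool.Agent.W307.RT.tors_iff.2 hT
  have hp : ∏ i ∈ T, (d i : ℤ) ≠ 0 := by
    refine prod_ne_zero_iff.2 fun i _ => ?_
    obtain ⟨q, q', h1, h2, h3, -⟩ := hd
    rw [h1 i]
    exact_mod_cast mul_ne_zero (h2 i).1.ne_zero (h3 i).1.ne_zero
  have hD2 := Pool.Agent.Y723.QT.disc_q hp hD
  have hT2 := Pool.Agent.Y667.QK.hasT_tw hp hD hT'
  obtain ⟨h1, h2⟩ := h.1 T
  obtain ⟨⟨h3, h4⟩, ⟨h5, h6⟩, -⟩ := Pool.Agent.Y667.SX.sx_of (c := tw d T c) (r := 0) hD2 hT2 h1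
    (by rw [zero_add]; exact h2)
  rw [pow_zero] at h6
  have h7 := Nat.eq_one_of_mul_eq_one_right h6
  have h8 := Nat.eq_one_of_mul_eq_one_left h6
  refine ⟨?_, h.2 T, h4, fun x hx => ?_⟩
  · by_contra h0
    have h9 : Module.finrank ℤ (Pool.Agent.W307.RT.Sh (tw d T c).1 (tw d T c).2).toAffine.Point ≠ 0 := h0
    have h10 := Nat.one_lt_two_pow h9
    omega
  · have h9 := (Nat.card_eq_one_iff_unique.1 h8).1
    have h10 : (⟨x, hx⟩ : {x : Sha (E (tw d T c).1 (tw d T c).2) // x + x = 0}) =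
        ⟨0, add_zero 0⟩ := h9.elim _ _
    exact congrArg Subtype.val h10

lemma tup_of {m N : ℕ} {d : Fin m → ℕ} (h : Pool.Agent.Y667.QK.Tup m N d) : Tuple N d := by
  obtain ⟨q, q', h1, h2, h3, h4⟩ := h
  exact ⟨q, q', h1, fun i => h2 i, fun i => h3 i, h4⟩

/-- one of finitely many -/
lemma pack {ι : Type} (L : Finset ι) (p : ι → ℕ → ℝ) (δ : ℝ)
    (h : ∀ᶠ Z : ℕ in atTop, ∃ d ∈ L, δ ≤ p d Z) : ∃ d ∈ L, ∃ᶠ Z : ℕ in atTop, δ ≤ p d Z := by
  by_contra hcon
  push Not at hcon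
  have h1 : ∀ᶠ Z : ℕ in atTop, ∀ d ∈ L, ¬ δ ≤ p d Z := by
    rw [Filter.eventually_all_finset]
    intro d hd
    exact (hcon d hd).mono fun Z hZ => not_le.2 hZ
  obtain ⟨Z, hZ1, hZ2⟩ := (h.and h1).exists
  obtain ⟨d, hd, hle⟩ := hZ1
  exact hZ2 d hd hle

/-- **Theorem.** For each of the three orderings (conductor, minimal discriminant, naive height) of
the elliptic curves over `ℚ` with full rational 2-torsion there are finitely many curves of size at
most `Z`, their number tends to infinity with `Z`, and for all `m`, `N` there are a finite list `L` of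
tuples of products of two primes larger than `N`, the `2 m` primes distinct, and `δ > 0` such that
for all large `Z` for some `d` in `L` at least a proportion `δ` of the curves of size at most `Z`
belongs to `MinimalTwists d`; and one `d` in `L` has this property for arbitrarily large `Z`. -/
theorem result : ∀ I : ℤ × ℤ → ℕ → Prop, IsOrdering I →
    (∀ Z : ℕ, (Fam I Z).Finite) ∧ Tendsto (fun Z : ℕ => (Fam I Z).ncard) atTop atTop ∧
    ∀ m N : ℕ, ∃ L : Finset (Fin m → ℕ), (∀ d ∈ L, Tuple N d) ∧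
      ∃ δ : ℝ, 0 < δ ∧ (∀ᶠ Z : ℕ in atTop, ∃ d ∈ L, δ ≤ proportion I (MinimalTwists d) Z) ∧
        ∃ d ∈ L, ∃ᶠ Z : ℕ in atTop, δ ≤ proportion I (MinimalTwists d) Z := by
  classical
  intro I hI
  rcases hI with rfl | rfl | ⟨f, hf, rfl⟩
  · refine ⟨fun Z => ?_, tendstoH, fun m N => ?_⟩
    · rw [FamH_eq]
      exact finite_toSet _
    · obtain ⟨L, hL, δ, hδ, H0, h⟩ := Pool.Agent.Y667.QK.R.mainH m N
      have key : ∀ᶠ Z : ℕ in atTop, ∃ d ∈ L, δ ≤ proportion HeightLe (MinimalTwists d) Z := by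
        filter_upwards [eventually_ge_atTop H0, tendstoH.eventually_ge_atTop 1] with H hH hH1
        obtain ⟨d, hd, hle⟩ := h H hH
        refine ⟨d, hd, ?_⟩
        unfold proportion
        rw [le_div_iff₀ (by exact_mod_cast hH1)]
        have e1 : (Fam HeightLe H).ncard = (Pool.Agent.W307.RT.Cv 2 H).card := by
          rw [FamH_eq, Set.ncard_coe_finset]
        rw [e1]
        refine hle.trans (Nat.cast_le.2 ?_)
        rw [← Set.ncard_coe_finset]
        refine Set.ncard_le_ncard (fun k hk => ?_) (Set.Finite.inter_of_left (by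
          rw [FamH_eq]
          exact finite_toSet _) _)
        rw [mem_coe, mem_filter] at hk
        have hkF : k ∈ Fam HeightLe H := by
          rw [FamH_eq, mem_coe]
          exact hk.1
        exact ⟨hkF, good_of (tup_of (hL d hd)) hkF.1 hkF.2.2.1 hk.2⟩
      exact ⟨L, fun d hd => tup_of (hL d hd), δ, hδ, key,
        pack L (fun d Z => proportion HeightLe (MinimalTwists d) Z) δ key⟩
  · refine ⟨fun Z => ?_, tendstoD, fun m N => ?_⟩
    · rw [FamD_eq]
      exact finite_toSet _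
    · obtain ⟨L, hL, δ, hδ, H0, h⟩ := Pool.Agent.Y667.QK.R.mainD m N
      have key : ∀ᶠ Z : ℕ in atTop, ∃ d ∈ L, δ ≤ proportion DiscLe (MinimalTwists d) Z := by
        filter_upwards [eventually_ge_atTop H0, tendstoD.eventually_ge_atTop 1] with H hH hH1
        obtain ⟨d, hd, hle⟩ := h H hH
        refine ⟨d, hd, ?_⟩
        unfold proportion
        rw [le_div_iff₀ (by exact_mod_cast hH1)]
        have e1 : (Fam DiscLe H).ncard = (Pool.Agent.TH344.DS.Dv H).card := by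
          rw [FamD_eq, Set.ncard_coe_finset]
        rw [e1]
        refine hle.trans (Nat.cast_le.2 ?_)
        rw [← Set.ncard_coe_finset]
        refine Set.ncard_le_ncard (fun k hk => ?_) (Set.Finite.inter_of_left (by
          rw [FamD_eq]
          exact finite_toSet _) _)
        rw [mem_coe, mem_filter] at hk
        have hkF : k ∈ Fam DiscLe H := by
          rw [FamD_eq, mem_coe]
          exact hk.1
        exact ⟨hkF, good_of (tup_of (hL d hd)) hkF.1 hkF.2.2.1 hk.2⟩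
      exact ⟨L, fun d hd => tup_of (hL d hd), δ, hδ, key,
        pack L (fun d Z => proportion DiscLe (MinimalTwists d) Z) δ key⟩
  · refine ⟨fun Z => ?_, ?_, fun m N => ?_⟩
    · rw [FamC_eq]
      exact Pool.Agent.Y679.Cr.Gm_fin good (bdd hf) Z
    · simp only [FamC_eq]
      exact Pool.Agent.Y679.Cr.Gm_tendsto good (bdd hf)
    · obtain ⟨L, hL, δ0, hδ0, H0, h0⟩ := Pool.Agent.Y667.QK.R.mainH m N
      obtain ⟨δ, hδ, h⟩ := Pool.Agent.X293.CO.cond_list L
        (fun d => Pool.Agent.Y667.QK.R.TwR (fun j => (d j : ℤ))) good ⟨δ0, hδ0, H0, h0⟩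
      have key : ∀ᶠ Z : ℕ in atTop, ∃ d ∈ L, δ ≤ proportion (CondLe f) (MinimalTwists d) Z := by
        filter_upwards [h f (bdd hf)] with Z hZ
        obtain ⟨d, hd, hle⟩ := hZ
        refine ⟨d, hd, hle.trans ?_⟩
        unfold proportion
        rw [FamC_eq]
        refine div_le_div_of_nonneg_right (Nat.cast_le.2 (Set.ncard_le_ncard ?_
          ((Pool.Agent.Y679.Cr.Gm_fin good (bdd hf) Z).subset Set.inter_subset_left)))
          (Nat.cast_nonneg _)
        rintro k ⟨h1, h2⟩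
        exact ⟨h1, good_of (tup_of (hL d hd)) h1.1.1 h1.1.2.2 h2⟩
      exact ⟨L, fun d hd => tup_of (hL d hd), δ, hδ, key,
        pack L (fun d Z => proportion (CondLe f) (MinimalTwists d) Z) δ key⟩

end Pool.Agent.Results.MP_6073f3_nt.TwistsThreeOrderings
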